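import Pool.Agent.helper1.TW.SpecA
import Pool.Agent.helper38.ZT.SpecG

/-!
# Project TW, row IVF: inversion
-/

set_option autoImplicit false

open Complex MeasureTheory Set
open scoped ComplexConjugate

namespace Pool.Agent.TW

open Pool.Agent.ZT (VV gC Bn MC lamA muA hm Sqf)

theorem IVF_sum : Summable (fun d : ℕ => (d : ℝ) ^ (-2 : ℝ)) :=
  Real.summable_nat_rpow.mpr (by norm_num)

theorem IVF_one (b : ℕ → ℂ) (C₀ : ℝ) (hb0 : b 0 = 0) (hb : ∀ m : ℕ, ‖b m‖ ≤ C₀ * m) (d : ℕ) :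
    ‖b d‖ * (d : ℝ) ^ (-3 : ℝ) ≤ C₀ * (d : ℝ) ^ (-2 : ℝ) := by
  rcases Nat.eq_zero_or_pos d with rfl | hd
  · rw [hb0]; simp
  · have hd' : (0 : ℝ) < d := by exact_mod_cast hd
    have h1 : (d : ℝ) ^ (-2 : ℝ) = d * (d : ℝ) ^ (-3 : ℝ) := by
      nth_rewrite 2 [← Real.rpow_one (d : ℝ)]
      rw [← Real.rpow_add hd']; norm_num
    rw [h1, ← mul_assoc]
    exact mul_le_mul_of_nonneg_right (hb d) (by positivity)

/-- inversion for an arbitrary function with decay -/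
theorem IVF_inv (C₀ : ℝ) (a b : ℕ → ℂ) (ha0 : a 0 = 0) (hb0 : b 0 = 0) (ha : ∀ m : ℕ, ‖a m‖ ≤ C₀ * m)
    (hb : ∀ m : ℕ, ‖b m‖ ≤ C₀ * m)
    (hinv : ∀ m : ℕ, ∑ x ∈ m.divisorsAntidiagonal, a x.1 * b x.2 = if m = 1 then 1 else 0)
    (g : ℝ → ℂ) (C : ℝ) (hC : ∀ x : ℝ, 0 < x → ‖g x‖ ≤ C * x ^ (-3 : ℝ)) (x : ℝ) (hx : 0 < x) :
    ∑' d : ℕ, b d * ∑' e : ℕ, a e * g (e * (d * x)) = g x := by
  have hC₀ : 0 ≤ C₀ := by
    have := ha 1
    rw [Nat.cast_one, mul_one] at this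
    exact (norm_nonneg _).trans this
  have hCnn : 0 ≤ C := by
    have := hC 1 one_pos
    rw [Real.one_rpow, mul_one] at this
    exact (norm_nonneg _).trans this
  have hf : Summable (fun p : ℕ × ℕ => b p.1 * (a p.2 * g (p.2 * (p.1 * x)))) := by
    have hs : Summable (fun p : ℕ × ℕ => (C₀ * (p.1 : ℝ) ^ (-2 : ℝ)) * (C₀ * (p.2 : ℝ) ^ (-2 : ℝ) * (C * x ^ (-3 : ℝ)))) :=
      Summable.mul_of_nonneg (IVF_sum.mul_left C₀) ((IVF_sum.mul_left C₀).mul_right _)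
        (fun _ => by positivity) (fun _ => by positivity)
    refine Summable.of_norm_bounded hs fun p => ?_
    obtain ⟨d, e⟩ := p
    simp only
    rcases Nat.eq_zero_or_pos d with rfl | hd
    · rw [hb0, zero_mul, norm_zero]; positivity
    rcases Nat.eq_zero_or_pos e with rfl | he
    · rw [ha0, zero_mul, mul_zero, norm_zero]; positivity
    have hd' : (0 : ℝ) < d := by exact_mod_cast hd
    have he' : (0 : ℝ) < e := by exact_mod_cast he
    rw [norm_mul, norm_mul]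
    calc ‖b d‖ * (‖a e‖ * ‖g (e * (d * x))‖) ≤
          ‖b d‖ * (‖a e‖ * (C * (e * (d * x)) ^ (-3 : ℝ))) := by
          refine mul_le_mul_of_nonneg_left ?_ (norm_nonneg _)
          exact mul_le_mul_of_nonneg_left (hC _ (by positivity)) (norm_nonneg _)
      _ = (‖b d‖ * (d : ℝ) ^ (-3 : ℝ)) * ((‖a e‖ * (e : ℝ) ^ (-3 : ℝ)) * (C * x ^ (-3 : ℝ))) := by
          rw [Real.mul_rpow he'.le (by positivity), Real.mul_rpow hd'.le hx.le]; ring
      _ ≤ _ := by
          refine mul_le_mul (IVF_one b C₀ hb0 hb d) ?_ (by positivity) (by positivity)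
          exact mul_le_mul_of_nonneg_right (IVF_one a C₀ ha0 ha e) (by positivity)
  have h1 : ∑' d : ℕ, b d * ∑' e : ℕ, a e * g (e * (d * x)) =
      ∑' p : ℕ × ℕ, b p.1 * (a p.2 * g (p.2 * (p.1 * x))) := by
    rw [hf.tsum_prod]
    refine tsum_congr fun d => ?_
    exact (tsum_mul_left (f := fun e : ℕ => a e * g (e * (d * x))) (a := b d)).symm
  rw [h1]
  have h2 := (Equiv.sigmaFiberEquiv (fun p : ℕ × ℕ => p.2 * p.1)).tsum_eq
    (fun p : ℕ × ℕ => b p.1 * (a p.2 * g (p.2 * (p.1 * x))))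
  rw [← h2]
  have h3 : Summable ((fun p : ℕ × ℕ => b p.1 * (a p.2 * g (p.2 * (p.1 * x)))) ∘
    (Equiv.sigmaFiberEquiv (fun p : ℕ × ℕ => p.2 * p.1))) :=
    (Equiv.summable_iff _).mpr hf
  have h4 := h3.tsum_sigma
  simp only [Function.comp] at h4
  rw [h4]
  have h5 : ∀ m : ℕ, (∑' q : {p : ℕ × ℕ // p.2 * p.1 = m},
      b ((Equiv.sigmaFiberEquiv (fun p : ℕ × ℕ => p.2 * p.1)) ⟨m, q⟩).1 *
        (a ((Equiv.sigmaFiberEquiv (fun p : ℕ × ℕ => p.2 * p.1)) ⟨m, q⟩).2 *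
        g (((Equiv.sigmaFiberEquiv (fun p : ℕ × ℕ => p.2 * p.1)) ⟨m, q⟩).2 *
          (((Equiv.sigmaFiberEquiv (fun p : ℕ × ℕ => p.2 * p.1)) ⟨m, q⟩).1 * x)))) =
      if m = 1 then g x else 0 := by
    intro m
    have h6 : ∀ q : {p : ℕ × ℕ // p.2 * p.1 = m},
        b ((Equiv.sigmaFiberEquiv (fun p : ℕ × ℕ => p.2 * p.1)) ⟨m, q⟩).1 *
        (a ((Equiv.sigmaFiberEquiv (fun p : ℕ × ℕ => p.2 * p.1)) ⟨m, q⟩).2 *
        g (((Equiv.sigmaFiberEquiv (fun p : ℕ × ℕ => p.2 * p.1)) ⟨m, q⟩).2 *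
          (((Equiv.sigmaFiberEquiv (fun p : ℕ × ℕ => p.2 * p.1)) ⟨m, q⟩).1 * x))) =
        (a q.1.2 * b q.1.1) * g (m * x) := by
      rintro ⟨⟨d, e⟩, hq⟩
      have hm : (m : ℝ) = e * d := by rw [← hq]; push_cast; ring
      simp only [Equiv.sigmaFiberEquiv, Equiv.coe_fn_mk]
      rw [hm]
      have : (e : ℝ) * (d * x) = e * d * x := by ring
      rw [this]
      ring
    rw [tsum_congr h6, tsum_mul_right]
    have h7 : ∑' q : {p : ℕ × ℕ // p.2 * p.1 = m}, a q.1.2 * b q.1.1 = if m = 1 then 1 else 0 := by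
      rcases Nat.eq_zero_or_pos m with rfl | hm
      · rw [if_neg (by norm_num)]
        have : ∀ q : {p : ℕ × ℕ // p.2 * p.1 = 0}, a q.1.2 * b q.1.1 = 0 := by
          rintro ⟨⟨d, e⟩, hq⟩
          rcases Nat.mul_eq_zero.mp hq with h | h
          · simp only at h ⊢
            rw [h, ha0, zero_mul]
          · simp only at h ⊢
            rw [h, hb0, mul_zero]
        rw [tsum_congr this, tsum_zero]
      · have h8 := hinv m
        rw [← h8]
        have h9 : ∑' q : {p : ℕ × ℕ // p.2 * p.1 = m}, a q.1.2 * b q.1.1 =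
            ∑' q : {p : ℕ × ℕ // p ∈ m.divisorsAntidiagonal}, a q.1.1 * b q.1.2 := by
          have he : ∀ p : ℕ × ℕ, p ∈ m.divisorsAntidiagonal ↔
              (Equiv.prodComm ℕ ℕ p).2 * (Equiv.prodComm ℕ ℕ p).1 = m := by
            intro p
            rw [Nat.mem_divisorsAntidiagonal]
            constructor
            · intro h
              exact h.1
            · intro h
              exact ⟨h, hm.ne'⟩
          let e : {p : ℕ × ℕ // p ∈ m.divisorsAntidiagonal} ≃ {p : ℕ × ℕ // p.2 * p.1 = m} :=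
            (Equiv.prodComm ℕ ℕ).subtypeEquiv he
          exact (Equiv.tsum_eq e (fun q => a q.1.2 * b q.1.1)).symm
        rw [h9]
        exact Finset.tsum_subtype m.divisorsAntidiagonal (fun q : ℕ × ℕ => a q.1 * b q.2)
    rw [h7]
    split_ifs with h
    · rw [one_mul, h, Nat.cast_one, one_mul]
    · rw [zero_mul]
  rw [tsum_congr h5, tsum_ite_eq]

theorem IVF (hGTF : GTF_stmt) (hGDC : Pool.Agent.ZT.GDC_stmt) : IVF_stmt := by
  intro n ι D hn hctr hr hω hX hX1 hXm hμ i w y hy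
  obtain ⟨hrho, -, -, hdec, -, -, -⟩ := hGTF n ι D hn hctr hr hω hX hμ
  have hrho0 : 0 < D.rho i := lt_of_lt_of_le one_pos (hrho i)
  -- the constant
  set A : ℝ := ∑' d : ℕ, (‖D.a d‖ + ‖D.b d‖) * (d : ℝ) ^ (-(3 / 5) : ℝ) with hA
  have hterm : ∀ d : ℕ, 0 < d → ‖D.a d‖ + ‖D.b d‖ ≤ A * d := by
    intro d hd
    have hd' : (0 : ℝ) < d := by exact_mod_cast hd
    have hd1 : (1 : ℝ) ≤ d := by exact_mod_cast hd
    have h1 : (‖D.a d‖ + ‖D.b d‖) * (d : ℝ) ^ (-(3 / 5) : ℝ) ≤ A :=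
      hctr.sm.le_tsum d (fun _ _ => by positivity)
    have hA0 : 0 ≤ A := le_trans (by positivity) h1
    have h2 : ‖D.a d‖ + ‖D.b d‖ = (‖D.a d‖ + ‖D.b d‖) * (d : ℝ) ^ (-(3 / 5) : ℝ) * (d : ℝ) ^ (3 / 5 : ℝ) := by
      rw [mul_assoc, ← Real.rpow_add hd']
      norm_num
    rw [h2]
    refine mul_le_mul h1 ?_ (by positivity) hA0
    calc (d : ℝ) ^ (3 / 5 : ℝ) ≤ (d : ℝ) ^ (1 : ℝ) := Real.rpow_le_rpow_of_exponent_le hd1 (by norm_num)
      _ = d := Real.rpow_one _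
  have hba : ∀ d : ℕ, ‖D.a d‖ ≤ A * d := by
    intro d
    rcases Nat.eq_zero_or_pos d with rfl | hd
    · rw [hctr.a0]; simp
    · exact (le_add_of_nonneg_right (norm_nonneg _)).trans (hterm d hd)
  have hbb : ∀ d : ℕ, ‖D.b d‖ ≤ A * d := by
    intro d
    rcases Nat.eq_zero_or_pos d with rfl | hd
    · rw [hctr.b0]; simp
    · exact (le_add_of_nonneg_left (norm_nonneg _)).trans (hterm d hd)
  have hA0 : 0 ≤ A := by
    have := hba 1
    rw [Nat.cast_one, mul_one] at this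
    exact (norm_nonneg _).trans this
  constructor
  · obtain ⟨C, hC⟩ := hdec 0 i w 3 le_rfl
    have hCnn : 0 ≤ C := by
      have := hC 1 one_pos
      rw [Real.one_rpow, mul_one] at this
      exact (norm_nonneg _).trans this
    set z : ℝ := y * D.rho i with hz
    have hz0 : 0 < z := mul_pos hy hrho0
    have hs : Summable (fun d : ℕ => (A * (d : ℝ) ^ (-2 : ℝ)) * (C * z ^ (-3 : ℝ))) :=
      (IVF_sum.mul_left A).mul_right _
    refine Summable.of_nonneg_of_le (fun _ => norm_nonneg _) (fun d => ?_) hs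
    rcases Nat.eq_zero_or_pos d with rfl | hd
    · rw [hctr.b0, zero_mul, norm_zero]; positivity
    · have hd' : (0 : ℝ) < d := by exact_mod_cast hd
      have e : (d : ℝ) * y * D.rho i = d * z := by rw [hz]; ring
      rw [norm_mul, e]
      calc ‖D.b d‖ * ‖D.f 0 i w (d * z)‖ ≤ ‖D.b d‖ * (C * (d * z) ^ (-3 : ℝ)) :=
            mul_le_mul_of_nonneg_left (hC _ (by positivity)) (norm_nonneg _)
        _ = (‖D.b d‖ * (d : ℝ) ^ (-3 : ℝ)) * (C * z ^ (-3 : ℝ)) := by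
            rw [Real.mul_rpow hd'.le hz0.le]; ring
        _ ≤ _ := mul_le_mul_of_nonneg_right (IVF_one D.b A hctr.b0 hbb d) (by positivity)
  · have hpar : Pool.Agent.BA.Par 1 (D.μ i) := ⟨hn, hμ i⟩
    obtain ⟨C, hC⟩ := (hGDC n 0 (D.μ i) hpar).2.1 w 3 (by norm_num)
    have hXn : ∀ (c : ℕ → ℂ), (∀ m, ‖c m‖ ≤ A * m) → ∀ m : ℕ, ‖c m * D.X i m‖ ≤ A * m := by
      intro c hc m
      rw [norm_mul]
      calc ‖c m‖ * ‖D.X i m‖ ≤ ‖c m‖ * 1 := mul_le_mul_of_nonneg_left (hX i m) (norm_nonneg _)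
        _ ≤ A * m := by rw [mul_one]; exact hc m
    have hinv : ∀ m : ℕ, ∑ x ∈ m.divisorsAntidiagonal, (D.a x.1 * D.X i x.1) * (D.b x.2 * D.X i x.2) =
        if m = 1 then 1 else 0 := by
      intro m
      have h1 : ∀ x ∈ m.divisorsAntidiagonal, (D.a x.1 * D.X i x.1) * (D.b x.2 * D.X i x.2) =
          D.X i m * (D.a x.1 * D.b x.2) := by
        intro x hx
        rw [← (Nat.mem_divisorsAntidiagonal.1 hx).1, hXm]
        ring
      rw [Finset.sum_congr rfl h1, ← Finset.mul_sum, hctr.inv m]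
      split_ifs with h
      · rw [h, hX1, mul_one]
      · rw [mul_zero]
    have key := IVF_inv A (fun m => D.a m * D.X i m) (fun m => D.b m * D.X i m) (by simp [hctr.a0]) (by simp [hctr.b0])
      (hXn D.a hba) (hXn D.b hbb) hinv (gC (D.μ i) 0 w) C hC y hy
    rw [← key, ← tsum_mul_left]
    refine tsum_congr fun d => ?_
    have hωω : conj (D.ω i) * D.ω i = 1 := by
      rw [← Complex.normSq_eq_conj_mul_self, Complex.normSq_eq_norm_sq, hω i]
      norm_num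
    unfold Dat.f
    have e : (d : ℝ) * y * D.rho i / D.rho i = d * y := by field_simp
    rw [e]
    linear_combination (D.b d * D.X i d * ∑' e : ℕ, D.a e * D.X i e * gC (D.μ i) 0 w (e * (d * y))) * hωω

end Pool.Agent.TW
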