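import Pool.Agent.helper1.TW.SpecB

/-!
# Project TW, row RGC: regime (c) of the multilinear estimate
-/

set_option autoImplicit false

open Complex MeasureTheory Set
open scoped ComplexConjugate

namespace Pool.Agent.TW

open Pool.Agent.ZT (VV gC Bn MC cmf cmA cmI lamA muA hm Sqf)

/-- splitting the indices into two parts with large sums -/
theorem RGC_split (s : ℕ) (l : Fin s → ℕ) (h : ∀ i, 40 * l i ≤ ∑ i, l i) :
    ∃ t : Finset (Fin s), ∑ i, l i ≤ 4 * ∑ i ∈ t, l i ∧ ∑ i, l i ≤ 4 * ∑ i ∈ tᶜ, l i := by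
  classical
  have hex : ∃ c : ℕ, ∃ t : Finset (Fin s), t.card = c ∧ ∑ i, l i ≤ 4 * ∑ i ∈ t, l i :=
    ⟨_, Finset.univ, rfl, by omega⟩
  obtain ⟨t, htc, ht⟩ := Nat.find_spec hex
  have hadd : ∑ i ∈ t, l i + ∑ i ∈ tᶜ, l i = ∑ i, l i := Finset.sum_add_sum_compl t l
  refine ⟨t, ht, ?_⟩
  rcases t.eq_empty_or_nonempty with rfl | ⟨i, hi⟩
  · rw [Finset.sum_empty] at ht hadd
    omega
  · have h1 : ¬ ∑ i, l i ≤ 4 * ∑ j ∈ t.erase i, l j := by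
      intro h2
      have h3 : (t.erase i).card < Nat.find hex := by
        rw [← htc]
        exact Finset.card_erase_lt_of_mem hi
      exact Nat.find_min hex h3 ⟨t.erase i, rfl, h2⟩
    have h2 : l i + ∑ j ∈ t.erase i, l j = ∑ j ∈ t, l j := Finset.add_sum_erase t l hi
    have h3 := h i
    omega

/-- every `y` is in few of the intervals -/
theorem RGC_count (𝒵 : Finset ℕ) (δ y : ℝ) (s : ℕ) (hδ : 0 < δ) :
    (𝒵.filter fun Z => δ * 2 ^ Z < y ∧ y ≤ 4 ^ (s + 2) * (δ * 2 ^ Z)).card ≤ 2 * s + 4 := by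
  set T := 𝒵.filter fun Z => δ * 2 ^ Z < y ∧ y ≤ 4 ^ (s + 2) * (δ * 2 ^ Z) with hT
  rcases T.eq_empty_or_nonempty with h | h
  · rw [h]; simp
  · have h0 := Finset.min'_mem T h
    set Z₀ := T.min' h with hZ₀
    have hsub : T ⊆ Finset.Ico Z₀ (Z₀ + (2 * s + 4)) := by
      intro Z hZ
      rw [Finset.mem_Ico]
      refine ⟨Finset.min'_le T Z hZ, ?_⟩
      have h1 := (Finset.mem_filter.1 hZ).2.1
      have h2 := (Finset.mem_filter.1 h0).2.2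
      have h3 : δ * 2 ^ Z < δ * 2 ^ (Z₀ + (2 * s + 4)) := by
        refine h1.trans_le (h2.trans (le_of_eq ?_))
        have e : (4 : ℝ) ^ (s + 2) = 2 ^ (2 * s + 4) := by
          rw [show (2 * s + 4) = 2 * (s + 2) by ring, pow_mul]
          norm_num
        rw [e, pow_add]
        ring
      have h4 : (2 : ℝ) ^ Z < 2 ^ (Z₀ + (2 * s + 4)) := lt_of_mul_lt_mul_left h3 hδ.le
      exact (pow_lt_pow_iff_right₀ (by norm_num)).1 h4
    refine (Finset.card_le_card hsub).trans ?_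
    rw [Nat.card_Ico]
    omega

theorem RGC_int (G : ℝ → ℝ) (hG : IntegrableOn G (Ioi 1)) (hG0 : ∀ y : ℝ, 1 < y → 0 ≤ G y)
    (𝒵 : Finset ℕ) (a b : ℕ → ℝ) (ha : ∀ Z ∈ 𝒵, 1 ≤ a Z) (M : ℕ)
    (hM : ∀ y : ℝ, (𝒵.filter fun Z => a Z < y ∧ y ≤ b Z).card ≤ M) :
    ∑ Z ∈ 𝒵, ∫ y in Ioc (a Z) (b Z), G y ≤ M * ∫ y in Ioi (1 : ℝ), G y := by
  classical
  have h1 : ∀ Z ∈ 𝒵, ∫ y in Ioc (a Z) (b Z), G y = ∫ y in Ioi (1 : ℝ), (Ioc (a Z) (b Z)).indicator G y := by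
    intro Z hZ
    rw [setIntegral_indicator measurableSet_Ioc]
    have : Ioi (1 : ℝ) ∩ Ioc (a Z) (b Z) = Ioc (a Z) (b Z) := by
      apply inter_eq_right.2
      intro y hy
      exact lt_of_le_of_lt (ha Z hZ) hy.1
    rw [this]
  have hint : ∀ Z ∈ 𝒵, IntegrableOn ((Ioc (a Z) (b Z)).indicator G) (Ioi 1) := by
    intro Z _
    exact hG.indicator measurableSet_Ioc
  rw [Finset.sum_congr rfl h1, ← integral_finset_sum _ hint, ← integral_const_mul]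
  refine setIntegral_mono_on (integrable_finset_sum _ hint) (hG.const_mul _) measurableSet_Ioi ?_
  intro y hy
  rw [mem_Ioi] at hy
  have h2 : ∑ Z ∈ 𝒵, (Ioc (a Z) (b Z)).indicator G y =
      ((𝒵.filter fun Z => a Z < y ∧ y ≤ b Z).card : ℝ) * G y := by
    have h3 : ∀ Z ∈ 𝒵, (Ioc (a Z) (b Z)).indicator G y = if a Z < y ∧ y ≤ b Z then G y else 0 := by
      intro Z _
      rw [indicator_apply]
      rfl
    rw [Finset.sum_congr rfl h3, ← Finset.sum_filter, Finset.sum_const, nsmul_eq_mul]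
  rw [h2]
  exact mul_le_mul_of_nonneg_right (by exact_mod_cast hM y) (hG0 y hy)

theorem RGC_log3 (q : ℝ) (hq : 3 ≤ q) : 1 ≤ Real.log q := by
  rw [Real.le_log_iff_exp_le (by linarith)]
  have := Real.exp_one_lt_d9
  linarith

theorem RGC_G (hBNF : BNF_stmt) (hSUP : SUP_stmt) {n : ℕ} {ι : Type} (D : Dat n ι) (k N₀ : ℕ) (c CG : ℝ)
    (om : ℕ → ℕ → ℝ) (μs : Finset (Fin n → ℝ)) (hOk : D.Ok k N₀ c CG om μs) (hn : 1 ≤ n) (x₁ q : ℝ)
    (hx₁ : 0 < x₁) (hx₁1 : x₁ ≤ 1) (hq : 3 ≤ q) (v : ι →₀ VV) :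
    0 ≤ D.N x₁ q v ∧ (∀ y : ℝ, 0 < y → 0 ≤ D.S v y) ∧ (∀ y : ℝ, 0 < y → 0 < Bn n (Real.log q) y) ∧
    ContinuousOn (D.S v) (Ioi 0) ∧
    IntegrableOn (fun y : ℝ => Bn n (Real.log q) y * D.S v y + D.N x₁ q v / √q * y ^ (-(21 / 20) : ℝ)) (Ioi 1) ∧
    ∫ y in Ioi (1 : ℝ), (Bn n (Real.log q) y * D.S v y + D.N x₁ q v / √q * y ^ (-(21 / 20) : ℝ)) ≤
      21 * (D.N x₁ q v / √q) := by
  obtain ⟨-, hS0, -, -, hcont, -, hint, hN0, -⟩ :=
    hSUP n ι D hn hOk.ctr hOk.fam.r1 hOk.om hOk.fam.bd hOk.pos v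
  have hL1 := RGC_log3 q hq
  obtain ⟨-, -, hBpos, -⟩ := hBNF n (Real.log q) x₁ hL1 hx₁ hx₁1
  have hN := hN0 x₁ q hx₁ hq
  have hi := hint x₁ q hx₁ hq
  have hi1 : IntegrableOn (fun x => Bn n (Real.log q) x * D.S v x) (Ioi 1) := hi.mono_set (Ioi_subset_Ioi hx₁1)
  have hsq : 0 < √q := Real.sqrt_pos.2 (by linarith)
  have hr : IntegrableOn (fun y : ℝ => y ^ (-(21 / 20) : ℝ)) (Ioi 1) :=
    integrableOn_Ioi_rpow_of_lt (by norm_num) one_pos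
  have hr1 : ∫ y in Ioi (1 : ℝ), y ^ (-(21 / 20) : ℝ) = 20 := by
    rw [integral_Ioi_rpow_of_lt (by norm_num) one_pos, Real.one_rpow]
    norm_num
  refine ⟨hN, hS0, hBpos, hcont, hi1.add (hr.const_mul _), ?_⟩
  rw [integral_add hi1 (hr.const_mul _), integral_const_mul, hr1]
  have h1 : ∫ x in Ioi (1 : ℝ), Bn n (Real.log q) x * D.S v x ≤ D.N x₁ q v / √q := by
    rw [le_div_iff₀ hsq]
    unfold Dat.N
    rw [mul_comm (√q)]
    refine mul_le_mul_of_nonneg_right ?_ hsq.le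
    refine setIntegral_mono_set hi ?_ (Filter.Eventually.of_forall (Ioi_subset_Ioi hx₁1))
    rw [Filter.EventuallyLE, ae_restrict_iff' measurableSet_Ioi]
    refine Filter.Eventually.of_forall fun y hy => ?_
    have hy0 : 0 < y := hx₁.trans hy
    exact mul_nonneg (hBpos y hy0).le (hS0 y hy0)
  linarith

theorem RGC_bn (n : ℕ) (L y : ℝ) (Z : ℕ) (hL : 0 < L) (hLZ : L ≤ Z) (hy : 1 < y) (hyZ : Real.log y ≤ 3 * Z) :
    (L / Z) ^ (n + 2) ≤ 4 ^ (n + 2) * Bn n L y := by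
  unfold Bn
  rw [if_neg (not_le.2 hy)]
  have hlog : 0 ≤ Real.log y := Real.log_nonneg hy.le
  have hZ : (0 : ℝ) < Z := hL.trans_le hLZ
  have hA : 0 < 1 + Real.log y / L := by positivity
  rw [← inv_pow, ← mul_pow]
  refine pow_le_pow_left₀ (by positivity) ?_ _
  rw [← div_eq_mul_inv, div_le_div_iff₀ hZ hA]
  have : L * (1 + Real.log y / L) = L + Real.log y := by field_simp
  linarith

theorem RGC_log (q y : ℝ) (d Z s : ℕ) (hq : 1 ≤ q) (hL : 4 ≤ Real.log q) (hd : 1 ≤ d) (hs : 1 ≤ s) (hdZ : d ^ 7 < 2 ^ Z)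
    (hsZ : s * Real.log q ≤ 2 * Z) (hy : 0 < y) (hyZ : y ≤ 4 ^ (s + 2) * ((d : ℝ) * 2 ^ Z / √q)) :
    Real.log y ≤ 3 * Z := by
  have hsq : 1 ≤ √q := by rw [Real.one_le_sqrt]; exact hq
  have hd0 : (0 : ℝ) < d := by exact_mod_cast hd
  have h1 : y ≤ 4 ^ (s + 2) * ((d : ℝ) * 2 ^ Z) := by
    refine hyZ.trans (mul_le_mul_of_nonneg_left ?_ (by positivity))
    exact div_le_self (by positivity) hsq
  have h2 : Real.log y ≤ Real.log (4 ^ (s + 2) * ((d : ℝ) * 2 ^ Z)) := Real.log_le_log hy h1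
  rw [Real.log_mul (by positivity) (by positivity), Real.log_mul (by positivity) (by positivity),
    Real.log_pow, Real.log_pow] at h2
  have h4 : Real.log 4 = 2 * Real.log 2 := by
    rw [show (4 : ℝ) = 2 ^ 2 by norm_num, Real.log_pow]
    norm_num
  have h7 : 7 * Real.log d ≤ Z * Real.log 2 := by
    have h8 : (d : ℝ) ^ 7 ≤ 2 ^ Z := by exact_mod_cast hdZ.le
    have h9 := Real.log_le_log (by positivity) h8
    rw [Real.log_pow, Real.log_pow] at h9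
    exact_mod_cast h9
  have hl2 := Real.log_two_lt_d9
  have hl2' := Real.log_two_gt_d9
  have hs1 : (1 : ℝ) ≤ s := by exact_mod_cast hs
  have hsZ' : (s : ℝ) * 4 ≤ 2 * Z := le_trans (mul_le_mul_of_nonneg_left hL (by positivity)) hsZ
  have hZ0 : (0 : ℝ) ≤ Z := Nat.cast_nonneg _
  rw [h4] at h2
  push_cast at h2
  have h10 : ((s : ℝ) + 2) * (2 * Real.log 2) ≤ (3 * Z / 2) * (2 * Real.log 2) := by
    refine mul_le_mul_of_nonneg_right ?_ (by linarith)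
    linarith
  nlinarith

theorem RGC_facts (L : ℝ) (s d : ℕ) (l : Fin s → ℕ) (hL : 4 ≤ L) (hs : 1 ≤ s) (hlL : ∀ i, L / 2 ≤ (l i : ℝ))
    (h1 : d ^ 7 < 2 ^ (∑ i, l i)) (h2 : ∀ i, 2 ^ (49 * l i) < d * 2 ^ (∑ j ∈ Finset.univ.erase i, l j)) :
    (∀ i, 40 * l i ≤ ∑ i, l i) ∧ (s : ℝ) * L ≤ 2 * ((∑ i, l i : ℕ) : ℝ) ∧ 40 ≤ s ∧
      20 * L ≤ ((∑ i, l i : ℕ) : ℝ) := by
  have ha : ∀ i, 40 * l i ≤ ∑ i, l i := by
    intro i
    have h3 : l i + ∑ j ∈ Finset.univ.erase i, l j = ∑ j, l j := Finset.add_sum_erase _ l (Finset.mem_univ i)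
    set E := ∑ j ∈ Finset.univ.erase i, l j with hE
    set Z := ∑ j, l j with hZ
    have h4 : (2 ^ (49 * l i)) ^ 7 < (d * 2 ^ E) ^ 7 := Nat.pow_lt_pow_left (h2 i) (by norm_num)
    have h5 : (d * 2 ^ E) ^ 7 < 2 ^ Z * 2 ^ (7 * E) := by
      rw [mul_pow, ← pow_mul, mul_comm E 7]
      exact Nat.mul_lt_mul_of_pos_right h1 (by positivity)
    rw [← pow_mul] at h4
    rw [← pow_add] at h5
    have h6 := (Nat.pow_lt_pow_iff_right (by norm_num : 1 < 2)).1 (h4.trans h5)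
    omega
  have hb : (s : ℝ) * L ≤ 2 * ((∑ i, l i : ℕ) : ℝ) := by
    have h3 : ∑ _i : Fin s, L / 2 ≤ ∑ i, (l i : ℝ) := Finset.sum_le_sum fun i _ => hlL i
    rw [Finset.sum_const, Finset.card_univ, Fintype.card_fin, nsmul_eq_mul] at h3
    push_cast
    linarith
  have hs0 : (1 : ℝ) ≤ s := by exact_mod_cast hs
  have hZpos : 0 < ∑ i, l i := by
    have h3 : (0 : ℝ) < ((∑ i, l i : ℕ) : ℝ) := by nlinarith
    exact_mod_cast h3
  have hc : 40 ≤ s := by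
    have h3 : ∑ i, 40 * l i ≤ ∑ _i : Fin s, ∑ i, l i := Finset.sum_le_sum fun i _ => ha i
    rw [← Finset.mul_sum, Finset.sum_const, Finset.card_univ, Fintype.card_fin, smul_eq_mul] at h3
    exact Nat.le_of_mul_le_mul_right h3 hZpos
  refine ⟨ha, hb, hc, ?_⟩
  have h3 : (40 : ℝ) ≤ s := by exact_mod_cast hc
  nlinarith

theorem RGC_one (q : ℝ) (d Z : ℕ) (hL : 4 ≤ Real.log q) (hq : 1 ≤ q) (hd : 1 ≤ d) (hZ : 20 * Real.log q ≤ (Z : ℝ)) :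
    1 ≤ (d : ℝ) * 2 ^ Z / √q := by
  have hq0 : 0 < q := by linarith
  have hsq : 0 < √q := Real.sqrt_pos.2 hq0
  rw [le_div_iff₀ hsq, one_mul]
  have h1 : √q ≤ q := by
    rw [Real.sqrt_le_left (by linarith)]
    nlinarith
  have hl2 := Real.log_two_gt_d9
  have h2 : q ≤ 2 ^ Z := by
    rw [← Real.log_le_log_iff hq0 (by positivity), Real.log_pow]
    nlinarith
  have hd1 : (1 : ℝ) ≤ d := by exact_mod_cast hd
  have h3 : (0 : ℝ) < 2 ^ Z := by positivity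
  nlinarith

theorem RGC_Ii (S : ℝ → ℝ) (cc x b : ℝ) (hcont : ContinuousOn S (Ioi 0)) (hx : 1 ≤ x) :
    IntegrableOn (fun y : ℝ => S y + cc * y ^ (-(21 / 20) : ℝ)) (Ioc x b) := by
  have hsub : Icc x b ⊆ Ioi 0 := fun y hy => lt_of_lt_of_le (by linarith) hy.1
  have h1 : ContinuousOn (fun y : ℝ => S y + cc * y ^ (-(21 / 20) : ℝ)) (Icc x b) := by
    refine (hcont.mono hsub).add (continuousOn_const.mul ?_)
    intro y hy
    exact (Real.continuousAt_rpow_const y _ (Or.inl (ne_of_gt (hsub hy)))).continuousWithinAt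
  exact (h1.integrableOn_Icc).mono_set Ioc_subset_Icc_self

theorem RGC_Iv (n : ℕ) (L : ℝ) (Z : ℕ) (S : ℝ → ℝ) (cc x b : ℝ) (hL : 0 < L) (hLZ : L ≤ Z)
    (hS0 : ∀ y : ℝ, 0 < y → 0 ≤ S y) (hcont : ContinuousOn S (Ioi 0)) (hcc : 0 ≤ cc) (hx : 1 ≤ x)
    (hlog : ∀ y : ℝ, x < y → y ≤ b → Real.log y ≤ 3 * Z)
    (hG : IntegrableOn (fun y : ℝ => Bn n L y * S y + cc * y ^ (-(21 / 20) : ℝ)) (Ioi 1)) :
    (L / Z) ^ (n + 2) * ∫ y in Ioc x b, (S y + cc * y ^ (-(21 / 20) : ℝ)) ≤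
      4 ^ (n + 2) * ∫ y in Ioc x b, (Bn n L y * S y + cc * y ^ (-(21 / 20) : ℝ)) := by
  have hsub : Ioc x b ⊆ Ioi 1 := fun y hy => lt_of_le_of_lt hx hy.1
  rw [← integral_const_mul, ← integral_const_mul]
  refine setIntegral_mono_on ((RGC_Ii S cc x b hcont hx).const_mul _) ((hG.mono_set hsub).const_mul _)
    measurableSet_Ioc ?_
  intro y hy
  have hy1 : 1 < y := hsub hy
  have hy0 : 0 < y := by linarith
  have h1 := RGC_bn n L y Z hL hLZ hy1 (hlog y hy.1 hy.2)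
  have h2 : (L / Z) ^ (n + 2) ≤ 4 ^ (n + 2) := by
    refine (pow_le_one₀ (by positivity) ?_).trans (one_le_pow₀ (by norm_num))
    rw [div_le_one (hL.trans_le hLZ)]
    exact hLZ
  have h3 : 0 ≤ cc * y ^ (-(21 / 20) : ℝ) := by positivity
  calc (L / Z) ^ (n + 2) * (S y + cc * y ^ (-(21 / 20) : ℝ)) =
        (L / Z) ^ (n + 2) * S y + (L / Z) ^ (n + 2) * (cc * y ^ (-(21 / 20) : ℝ)) := by ring
    _ ≤ 4 ^ (n + 2) * Bn n L y * S y + 4 ^ (n + 2) * (cc * y ^ (-(21 / 20) : ℝ)) :=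
        add_le_add (mul_le_mul_of_nonneg_right h1 (hS0 y hy0)) (mul_le_mul_of_nonneg_right h2 h3)
    _ = _ := by ring

theorem RGC_const (s : ℕ) (hs : 1 ≤ s) (A : ℝ) (hA : 1 ≤ A) : A * (2 * s + 4) ≤ (7 * A) ^ s := by
  have h1 : (1 : ℝ) + s * 6 ≤ (1 + 6) ^ s := one_add_mul_le_pow (by norm_num) s
  have hs1 : (1 : ℝ) ≤ s := by exact_mod_cast hs
  have h2 : A ≤ A ^ s := le_self_pow₀ hA (by omega)
  rw [mul_pow, mul_comm ((7 : ℝ) ^ s)]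
  refine mul_le_mul h2 ?_ (by positivity) (by positivity)
  norm_num at h1
  linarith

theorem RGC (hBID : BID_stmt) (hCMB : CMB_stmt) (hWBK : WBK_stmt) (hBEF : BEF_stmt) (hBNF : BNF_stmt)
    (hSUP : SUP_stmt) : RGC_stmt := by
  classical
  intro k n N₀ c CG om μs a b hctr hk hn
  obtain ⟨x₀, hx₀, hx₀1, hB⟩ := hBID k n N₀ c CG om μs a b hctr hk hn
  refine ⟨x₀, hx₀, hx₀1, fun x₁ hx₁ hx₁0 R₀ hR₀ => ?_⟩
  obtain ⟨KB, hKB, qB, hqB, hB⟩ := hB x₁ hx₁ hx₁0 R₀ hR₀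
  have hx₁1 : x₁ ≤ 1 := hx₁0.trans hx₀1
  have hn1 : 1 ≤ n := by omega
  obtain ⟨KC, hKC, hC⟩ := hCMB n hn1
  obtain ⟨hW1, -, hW3, -, -, hW6⟩ := hWBK k (by omega)
  obtain ⟨CW, qW, -, hqW, hW⟩ := hW6 n x₁ hx₁ hx₁1
  obtain ⟨CE, qE, -, hqE, -, hE⟩ := hBEF k n N₀ c CG om x₁ hk hx₁ hx₁1
  have hP4 : (1 : ℝ) ≤ 4 ^ (n + 2) := one_le_pow₀ (by norm_num)
  obtain ⟨K0, hK0⟩ : ∃ K0 : ℝ, K0 = 21 * 4 ^ (n + 2) := ⟨_, rfl⟩
  have hK01 : 1 ≤ K0 := by rw [hK0]; linarith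
  have hKK : 1 ≤ KB * KC := one_le_mul_of_one_le_of_one_le hKB hKC
  refine ⟨7 * K0 * (KB * KC), ?_, max (max qB qW) (max qE (Real.exp 4)), ?_, ?_⟩
  · exact one_le_mul_of_one_le_of_one_le (by linarith) hKK
  · exact hqB.trans ((le_max_left _ _).trans (le_max_left _ _))
  intro ι D hDa hDb hOk q hq s d u ρ hu v 𝓛 hd hs h𝓛
  have hqB' : qB ≤ q := ((le_max_left _ _).trans (le_max_left _ _)).trans hq
  have hqW' : qW ≤ q := ((le_max_right _ _).trans (le_max_left _ _)).trans hq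
  have hqE' : qE ≤ q := ((le_max_left _ _).trans (le_max_right _ _)).trans hq
  have hq4 : Real.exp 4 ≤ q := ((le_max_right _ _).trans (le_max_right _ _)).trans hq
  have hq3 : 3 ≤ q := hqB.trans hqB'
  have hL4 : 4 ≤ Real.log q := by
    rw [Real.le_log_iff_exp_le (by linarith)]
    exact hq4
  have hρ : ∀ i, 0 ≤ ρ i := fun i => (hu i).1
  -- vanishing
  have hvan : ∀ l : Fin s → ℕ, D.MB q k (fun i => D.be om R₀ x₁ q k (u i)) v d l ≠ 0 →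
      ∀ i, Real.log q / 2 ≤ (l i : ℝ) := by
    intro l hl i
    by_contra hlt
    apply hl
    unfold Dat.MB
    refine Finset.sum_eq_zero fun p hp => ?_
    have hpi := (Fintype.mem_piFinset.1 hp) i
    have hb0 : D.be om R₀ x₁ q k (u i) (p i) = 0 := by
      by_contra hne
      obtain ⟨-, -, N', hN', hN'2⟩ := (hE ι D hOk.fam q R₀ (ρ i) (u i) hqE' hR₀ (hu i)).2.2.1 (p i) hne
      obtain ⟨N, hN, hN2⟩ := (hW3 (p i) (l i)).1 hpi
      have heq := hW1 N N' (p i) hN2 hN'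
      subst heq
      have h2 := (hW q N hqW' hN'2).1
      rw [hN] at h2
      exact hlt h2
    have hp0 : ∏ i, D.be om R₀ x₁ q k (u i) (p i) = 0 := Finset.prod_eq_zero (Finset.mem_univ i) hb0
    rw [hp0, zero_mul]
  set 𝓛' : Finset (Fin s → ℕ) := 𝓛.filter (fun l => ∀ i, Real.log q / 2 ≤ (l i : ℝ)) with h𝓛'
  have hsum : ∑ l ∈ 𝓛, D.MB q k (fun i => D.be om R₀ x₁ q k (u i)) v d l =
      ∑ l ∈ 𝓛', D.MB q k (fun i => D.be om R₀ x₁ q k (u i)) v d l :=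
    (Finset.sum_filter_of_ne fun l _ hl => hvan l hl).symm
  rw [hsum]
  obtain ⟨hN0, hS0, hBpos, hcont, hGi, hGle⟩ := RGC_G hBNF hSUP D k N₀ c CG om μs hOk hn1 x₁ q hx₁ hx₁1 hq3 v
  have hq0 : 0 < q := by linarith
  have hsq : 0 < √q := Real.sqrt_pos.2 hq0
  have hd0 : (0 : ℝ) < d := by exact_mod_cast hd
  set cc : ℝ := D.N x₁ q v / √q with hcc
  have hcc0 : 0 ≤ cc := div_nonneg hN0 hsq.le
  set L : ℝ := Real.log q with hLdef
  have hL0 : 0 < L := by linarith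
  have hfacts : ∀ l ∈ 𝓛', (∀ i, 40 * l i ≤ ∑ i, l i) ∧ (s : ℝ) * L ≤ 2 * ((∑ i, l i : ℕ) : ℝ) ∧ 40 ≤ s ∧
      20 * L ≤ ((∑ i, l i : ℕ) : ℝ) := fun l hl =>
    RGC_facts L s d l hL4 hs (Finset.mem_filter.1 hl).2 (h𝓛 l (Finset.mem_filter.1 hl).1).1
      (h𝓛 l (Finset.mem_filter.1 hl).1).2
  set xz : ℕ → ℝ := fun Z => (d : ℝ) * 2 ^ Z / √q with hxz
  set I : ℕ → ℝ := fun Z => ∫ y in Ioc (xz Z) (4 ^ (s + 2) * xz Z), (D.S v y + cc * y ^ (-(21 / 20) : ℝ)) with hI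
  set J : ℕ → ℝ := fun Z => ∫ y in Ioc (xz Z) (4 ^ (s + 2) * xz Z),
    (Bn n L y * D.S v y + cc * y ^ (-(21 / 20) : ℝ)) with hJ
  have hMB : ∀ l ∈ 𝓛', ‖D.MB q k (fun i => D.be om R₀ x₁ q k (u i)) v d l‖ ≤
      ((s.factorial : ℝ) * KB ^ s * (∏ i, ρ i) * (√q / d)) *
        ((∏ i, (L * (L / (l i : ℝ)) ^ (n + 1))) * I (∑ i, l i)) := by
    intro l hl
    obtain ⟨hf1, hf2, hf3, hf4⟩ := hfacts l hl
    obtain ⟨t, ht1, ht2⟩ := RGC_split s l hf1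
    have h1 := hB ι D hDa hDb hOk q hqB' s d u ρ hu v l t hd (by omega) (Finset.mem_filter.1 hl).2
      (h𝓛 l (Finset.mem_filter.1 hl).1).1.le ht1 ht2
    refine h1.trans (le_of_eq ?_)
    rw [Finset.prod_mul_distrib]
    ring
  set 𝒵 : Finset ℕ := 𝓛'.image (fun l => ∑ i, l i) with h𝒵
  have hZfacts : ∀ Z ∈ 𝒵, d ^ 7 < 2 ^ Z ∧ (s : ℝ) * L ≤ 2 * (Z : ℝ) ∧ 20 * L ≤ (Z : ℝ) := by
    intro Z hZ
    obtain ⟨l, hl, rfl⟩ := Finset.mem_image.1 hZ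
    obtain ⟨-, hf2, -, hf4⟩ := hfacts l hl
    exact ⟨(h𝓛 l (Finset.mem_filter.1 hl).1).1, hf2, hf4⟩
  have hx1 : ∀ Z ∈ 𝒵, 1 ≤ xz Z := fun Z hZ =>
    RGC_one q d Z hL4 (by linarith) hd (hZfacts Z hZ).2.2
  have hI0 : ∀ Z ∈ 𝒵, 0 ≤ I Z := by
    intro Z hZ
    refine setIntegral_nonneg measurableSet_Ioc fun y hy => ?_
    have hy0 : 0 < y := lt_trans (lt_of_lt_of_le one_pos (hx1 Z hZ)) hy.1
    exact add_nonneg (hS0 y hy0) (by positivity)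
  have hIJ : ∀ Z ∈ 𝒵, (L / Z) ^ (n + 2) * I Z ≤ 4 ^ (n + 2) * J Z := by
    intro Z hZ
    obtain ⟨hz1, hz2, hz3⟩ := hZfacts Z hZ
    refine RGC_Iv n L Z (D.S v) cc (xz Z) (4 ^ (s + 2) * xz Z) hL0 (by linarith) hS0 hcont hcc0 (hx1 Z hZ) ?_ hGi
    intro y hy1 hy2
    exact RGC_log q y d Z s (by linarith) hL4 hd hs hz1 hz2
      (lt_trans (lt_of_lt_of_le one_pos (hx1 Z hZ)) hy1) hy2
  have hJs : ∑ Z ∈ 𝒵, J Z ≤ ((2 * s + 4 : ℕ) : ℝ) * (21 * cc) := by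
    refine (RGC_int _ hGi ?_ 𝒵 xz (fun Z => 4 ^ (s + 2) * xz Z) hx1 (2 * s + 4) ?_).trans ?_
    · intro y hy
      have hy0 : 0 < y := by linarith
      exact add_nonneg (mul_nonneg (hBpos y hy0).le (hS0 y hy0)) (by positivity)
    · intro y
      have h1 := RGC_count 𝒵 ((d : ℝ) / √q) y s (by positivity)
      have e : ∀ Z : ℕ, xz Z = (d : ℝ) / √q * 2 ^ Z := fun Z => by rw [hxz]; ring
      simp only [e]
      exact h1
    · exact mul_le_mul_of_nonneg_left hGle (Nat.cast_nonneg _)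
  -- the sum over the tuples with a given Z
  have hCZ : ∀ Z ∈ 𝒵, ∑ l ∈ 𝓛' with ∑ i, l i = Z, ((∏ i, (L * (L / (l i : ℝ)) ^ (n + 1))) * I (∑ i, l i)) ≤
      KC ^ s * L ^ (2 * s) / L * (4 ^ (n + 2) * J Z) := by
    intro Z hZ
    have h1 : ∑ l ∈ 𝓛' with ∑ i, l i = Z, ((∏ i, (L * (L / (l i : ℝ)) ^ (n + 1))) * I (∑ i, l i)) =
        (∑ l ∈ 𝓛' with ∑ i, l i = Z, ∏ i, (L * (L / (l i : ℝ)) ^ (n + 1))) * I Z := by
      rw [Finset.sum_mul]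
      refine Finset.sum_congr rfl fun l hl => ?_
      rw [(Finset.mem_filter.1 hl).2]
    rw [h1]
    have h2 := hC s Z L (𝓛'.filter fun l => ∑ i, l i = Z) hL4 hs (by
      intro l hl
      obtain ⟨hl1, hl2⟩ := Finset.mem_filter.1 hl
      refine ⟨hl2, fun i => ⟨(Finset.mem_filter.1 hl1).2 i, ?_⟩⟩
      rw [← hl2]
      exact (hfacts l hl1).1 i)
    refine (mul_le_mul_of_nonneg_right h2 (hI0 Z hZ)).trans ?_
    rw [mul_assoc]
    exact mul_le_mul_of_nonneg_left (hIJ Z hZ) (by positivity)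
  have hA0 : 0 ≤ (s.factorial : ℝ) * KB ^ s * (∏ i, ρ i) * (√q / d) := by
    have := Finset.prod_nonneg (fun i (_ : i ∈ (Finset.univ : Finset (Fin s))) => hρ i)
    positivity
  have hKC0 : 0 ≤ KC ^ s * L ^ (2 * s) / L := by positivity
  have htot : ‖∑ l ∈ 𝓛', D.MB q k (fun i => D.be om R₀ x₁ q k (u i)) v d l‖ ≤
      ((s.factorial : ℝ) * KB ^ s * (∏ i, ρ i) * (√q / d)) *
        (KC ^ s * L ^ (2 * s) / L * (4 ^ (n + 2) * (((2 * s + 4 : ℕ) : ℝ) * (21 * cc)))) := by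
    refine (norm_sum_le _ _).trans ((Finset.sum_le_sum hMB).trans ?_)
    rw [← Finset.mul_sum]
    refine mul_le_mul_of_nonneg_left ?_ hA0
    rw [← Finset.sum_fiberwise_of_maps_to (s := 𝓛') (t := 𝒵) (g := fun l => ∑ i, l i)
      (fun l hl => Finset.mem_image_of_mem _ hl)]
    refine (Finset.sum_le_sum hCZ).trans ?_
    rw [← Finset.mul_sum, ← Finset.mul_sum]
    exact mul_le_mul_of_nonneg_left (mul_le_mul_of_nonneg_left hJs (by positivity)) hKC0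
  refine htot.trans ?_
  have hfin := RGC_const s hs K0 hK01
  have hB0 : 0 ≤ (s.factorial : ℝ) * (∏ i, ρ i) * (KB ^ s * KC ^ s * L ^ (2 * s)) / L / d * D.N x₁ q v := by
    have := Finset.prod_nonneg (fun i (_ : i ∈ (Finset.univ : Finset (Fin s))) => hρ i)
    positivity
  calc ((s.factorial : ℝ) * KB ^ s * (∏ i, ρ i) * (√q / d)) *
        (KC ^ s * L ^ (2 * s) / L * (4 ^ (n + 2) * (((2 * s + 4 : ℕ) : ℝ) * (21 * cc))))
      = (K0 * (2 * s + 4)) * ((s.factorial : ℝ) * (∏ i, ρ i) * (KB ^ s * KC ^ s * L ^ (2 * s)) / L / d * D.N x₁ q v) := by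
        rw [hcc, hK0]
        push_cast
        field_simp
    _ ≤ (7 * K0) ^ s * ((s.factorial : ℝ) * (∏ i, ρ i) * (KB ^ s * KC ^ s * L ^ (2 * s)) / L / d * D.N x₁ q v) :=
        mul_le_mul_of_nonneg_right hfin hB0
    _ = _ := by
        have e1 : (7 * K0 * (KB * KC) * L ^ 2) ^ s = (7 * K0) ^ s * (KB ^ s * KC ^ s * L ^ (2 * s)) := by
          rw [mul_pow, mul_pow (7 * K0), mul_pow KB, ← pow_mul, mul_assoc]
        rw [e1]
        ring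

end Pool.Agent.TW
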