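import Pool.Agent.helper70.TW.SpecE

/-!
# TW, row SPR: the characteristic polynomial of the Satake parameters
-/

set_option autoImplicit false

open Complex

namespace Pool.Agent.TW

open Pool.Agent.ZT (cmf cmA cmI lamA muA hm Sqf)

theorem SPR_prim {R : Type} [CommRing R] [IsDomain R] (m : ℕ) (hm : 0 < m) (z : R)
    (hz : IsPrimitiveRoot z m) (y : R) : ∏ j : Fin m, (1 - z ^ (j : ℕ) * y) = 1 - y ^ m := by
  classical
  have h1 := IsPrimitiveRoot.pow_sub_pow_eq_prod_sub_mul (1 : R) y hm hz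
  rw [one_pow] at h1
  rw [h1]
  have hinj : Set.InjOn (fun j : ℕ => z ^ j) (Finset.range m : Set ℕ) := by
    intro i hi j hj hij
    rw [Finset.coe_range, Set.mem_Iio] at hi hj
    exact hz.pow_inj hi hj hij
  have h2 : (Finset.range m).image (fun j => z ^ j) = Polynomial.nthRootsFinset m (1 : R) := by
    apply Finset.eq_of_subset_of_card_le
    · intro w hw
      rw [Finset.mem_image] at hw
      obtain ⟨j, -, rfl⟩ := hw
      rw [Polynomial.mem_nthRootsFinset hm, ← pow_mul, mul_comm, pow_mul, hz.pow_eq_one, one_pow]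
    · rw [hz.card_nthRootsFinset, Finset.card_image_of_injOn hinj, Finset.card_range]
  rw [← h2, Finset.prod_image hinj, Finset.prod_range]

theorem SPR_roots (m : ℕ) (hm : 0 < m) :
    ∏ j : Fin m, (1 - PowerSeries.C (exp (2 * (Real.pi : ℂ) * I * (((j : ℕ) : ℂ) / ((m : ℕ) : ℂ)))) * PowerSeries.X) =
      1 - (PowerSeries.X : PowerSeries ℂ) ^ m := by
  have hz : IsPrimitiveRoot (exp (2 * (Real.pi : ℂ) * I / (m : ℂ))) m := Complex.isPrimitiveRoot_exp m hm.ne'
  have hz' : IsPrimitiveRoot (PowerSeries.C (exp (2 * (Real.pi : ℂ) * I / (m : ℂ)))) m :=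
    hz.map_of_injective PowerSeries.C_injective
  rw [← SPR_prim m hm _ hz' PowerSeries.X]
  refine Finset.prod_congr rfl fun j _ => ?_
  rw [← map_pow, ← Complex.exp_nat_mul]
  have e : ((j : ℕ) : ℂ) * (2 * (Real.pi : ℂ) * I / (m : ℂ)) = 2 * (Real.pi : ℂ) * I * (((j : ℕ) : ℂ) / (m : ℂ)) := by ring
  rw [e]

theorem SPR_quad (a b u : ℂ) (hu : a + b = u) (v : ℂ) (hv : a * b = v) :
    (1 - PowerSeries.C a * PowerSeries.X) * (1 - PowerSeries.C b * PowerSeries.X) =
      1 - PowerSeries.C u * PowerSeries.X + PowerSeries.C v * PowerSeries.X ^ 2 := by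
  rw [← hu, ← hv, map_add, map_mul]
  ring

theorem SPR_sub (θ : ℝ) : exp (I * (θ : ℂ)) - exp (-(I * (θ : ℂ))) = 2 * I * ((Real.sin θ : ℝ) : ℂ) := by
  have h1 : I * (θ : ℂ) = (θ : ℂ) * I := mul_comm _ _
  have h2 : -(I * (θ : ℂ)) = ((-θ : ℝ) : ℂ) * I := by push_cast; ring
  rw [h2, h1, Complex.exp_mul_I, Complex.exp_mul_I]
  push_cast
  rw [Complex.cos_neg, Complex.sin_neg]
  ring

theorem SPR : SPR_stmt := by
  intro n hn β hβ
  obtain ⟨m, rfl⟩ : ∃ m, n = m + 4 := ⟨n - 4, by omega⟩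
  have him : |β.im| ≤ 1 := (Complex.abs_im_le_norm β).trans hβ
  have hre : |β.re| ≤ 1 := (Complex.abs_re_le_norm β).trans hβ
  rw [abs_le] at him hre
  have hsi : Real.sin (Real.arcsin (β.im / 2)) = β.im / 2 := Real.sin_arcsin (by linarith) (by linarith)
  have hsr : Real.sin (Real.arcsin (β.re / 2)) = β.re / 2 := Real.sin_arcsin (by linarith) (by linarith)
  have h1 := SPR_sub (Real.arcsin (β.im / 2))
  have h2 := SPR_sub (Real.arcsin (β.re / 2))
  rw [hsi] at h1
  rw [hsr] at h2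
  rw [Fin.prod_univ_succ, Fin.prod_univ_succ, Fin.prod_univ_succ, Fin.prod_univ_succ]
  have e0 : sat (m + 4) β 0 = exp (I * ((Real.arcsin (β.im / 2) : ℝ) : ℂ)) := by simp [sat]
  have e1 : sat (m + 4) β (Fin.succ 0) = -exp (-(I * ((Real.arcsin (β.im / 2) : ℝ) : ℂ))) := by
    unfold sat
    simp only [Fin.val_succ, Fin.val_zero]
    rw [if_neg (by norm_num), if_pos (by norm_num)]
  have e2 : sat (m + 4) β (Fin.succ (Fin.succ 0)) = I * exp (-(I * ((Real.arcsin (β.re / 2) : ℝ) : ℂ))) := by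
    unfold sat
    simp only [Fin.val_succ, Fin.val_zero]
    rw [if_neg (by norm_num), if_neg (by norm_num), if_pos (by norm_num)]
  have e3 : sat (m + 4) β (Fin.succ (Fin.succ (Fin.succ 0))) = -(I * exp (I * ((Real.arcsin (β.re / 2) : ℝ) : ℂ))) := by
    unfold sat
    simp only [Fin.val_succ, Fin.val_zero]
    rw [if_neg (by norm_num), if_neg (by norm_num), if_neg (by norm_num), if_pos (by norm_num)]
  have e4 : ∀ j : Fin m, sat (m + 4) β (Fin.succ (Fin.succ (Fin.succ (Fin.succ j)))) =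
      exp (2 * (Real.pi : ℂ) * I * (((j : ℕ) : ℂ) / ((m : ℕ) : ℂ))) := by
    intro j
    unfold sat
    simp only [Fin.val_succ]
    rw [if_neg (by omega), if_neg (by omega), if_neg (by omega), if_neg (by omega)]
    simp
  rw [e0, e1, e2, e3]
  simp only [e4]
  rw [SPR_roots m (by omega), Nat.add_sub_cancel]
  set a := exp (I * ((Real.arcsin (β.im / 2) : ℝ) : ℂ)) with ha
  set b := exp (-(I * ((Real.arcsin (β.im / 2) : ℝ) : ℂ))) with hb
  set c := exp (I * ((Real.arcsin (β.re / 2) : ℝ) : ℂ)) with hc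
  set d := exp (-(I * ((Real.arcsin (β.re / 2) : ℝ) : ℂ))) with hd
  have hab : a * b = 1 := by rw [ha, hb, ← Complex.exp_add, add_neg_cancel, Complex.exp_zero]
  have hcd : c * d = 1 := by rw [hc, hd, ← Complex.exp_add, add_neg_cancel, Complex.exp_zero]
  have q1 := SPR_quad a (-b) (I * (β.im : ℂ)) (by rw [← sub_eq_add_neg, h1]; push_cast; ring) (-1)
    (by rw [mul_neg, hab])
  have q2 := SPR_quad (I * d) (-(I * c)) (β.re : ℂ) (by
      have : I * d + -(I * c) = -I * (c - d) := by ring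
      rw [this, h2]
      push_cast
      linear_combination (-(β.re : ℂ)) * Complex.I_mul_I) 1 (by
      have : I * d * -(I * c) = -(I * I) * (c * d) := by ring
      rw [this, hcd, Complex.I_mul_I]
      ring)
  have hm1 : PowerSeries.C (-1 : ℂ) = -1 := by rw [map_neg, map_one]
  have hm2 : PowerSeries.C (1 : ℂ) = 1 := map_one _
  rw [hm1] at q1
  rw [hm2] at q2
  have e5 : ∀ A B C' D E : PowerSeries ℂ, A * (B * (C' * (D * E))) = (A * B) * (C' * D) * E := fun A B C' D E => by ring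
  rw [e5, q1, q2]
  ring

end Pool.Agent.TW
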